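import Pool.Agent.X263.PL.Germ

/-!
Elements of piecewise affine groups which are conjugate to proper powers.
-/

set_option autoImplicit false

namespace Pool.Agent.X263.PL

variable {K : Type*} [Field K] [LinearOrder K] [IsStrictOrderedRing K] {Γ : Type*} [Group Γ]
  {φ : Γ →* (K ≃o K)}

/-- a fixed point with a slope different from one -/
theorem exists_fixed_slope (hPA : ∀ g, PA (φ g)) (hφ : Function.Injective φ) {c : Γ}
    (hc : c ≠ 1) (hfp : ∃ p, φ c p = p) :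
    ∃ σ a m : K, (σ = 1 ∨ σ = -1) ∧ φ c a = a ∧ Sl σ (φ c) a m ∧ m ≠ 1 := by
  by_cases hid : ∃ b, ∀ x, x ≤ b → φ c x = x
  · have hsupp : ∃ p, φ c p ≠ p := by
      by_contra hcon2
      push Not at hcon2
      apply hc
      apply hφ
      rw [map_one]
      exact DFunLike.ext _ _ hcon2
    obtain ⟨a, b, m, hab, hm, g1, g2⟩ := first_support (hPA c) hid hsupp
    refine ⟨1, a, m, Or.inl rfl, g1 a le_rfl, ?_, hm⟩
    refine ⟨b - a, by linarith, fun t ht ht' => ?_⟩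
    rw [g2 _ (by linarith) (by linarith), g1 a le_rfl]
    ring
  · obtain ⟨a, h1, h2⟩ := first_fixed (hPA c) hid hfp
    obtain ⟨m, hm⟩ := (hPA c).exists_sl (σ := -1) (Or.inr rfl) a
    refine ⟨-1, a, m, Or.inr rfl, h1, hm, ?_⟩
    rintro rfl
    obtain ⟨ε, he, h3⟩ := hm
    have h4 := h3 ε he.le le_rfl
    refine h2 (a + -1 * ε) (by linarith) ?_
    rw [h4, h1]
    ring

/-- slopes of powers at fixed points -/
theorem Sl.pow {g : Γ} {σ a m : K} (hm : 0 < m) (h : Sl σ (φ g) a m) (ha : φ g a = a) (n : ℕ) :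
    φ (g ^ n) a = a ∧ Sl σ (φ (g ^ n)) a (m ^ n) := by
  induction n with
  | zero =>
    rw [pow_zero, map_one, pow_zero]
    refine ⟨rfl, 1, one_pos, fun t _ _ => ?_⟩
    change a + σ * t = a + σ * (1 * t)
    ring
  | succ n ih =>
    obtain ⟨h1, h2⟩ := ih
    have h3 : Sl σ (φ g) (φ (g ^ n) a) m := by rw [h1]; exact h
    have h4 := Sl.comp (pow_pos hm n) h2 h3
    rw [pow_succ', map_mul, pow_succ']
    refine ⟨?_, h4⟩
    change φ g (φ (g ^ n) a) = a
    rw [h1, ha]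

/-- slopes of conjugates -/
theorem Sl.conj (hPA : ∀ g, PA (φ g)) {g h : Γ} {σ a m : K} (hσ : σ = 1 ∨ σ = -1)
    (hm : Sl σ (φ g) a m) (ha : φ g a = a) :
    φ (h * g * h⁻¹) (φ h a) = φ h a ∧ Sl σ (φ (h * g * h⁻¹)) (φ h a) m := by
  obtain ⟨n, hn⟩ := (hPA h).exists_sl hσ a
  have hn0 := hn.pos hσ (φ h).strictMono
  have hm0 := hm.pos hσ (φ g).strictMono
  have h1 := Sl.inv hn0 hn
  have e0 : (φ h)⁻¹ (φ h a) = a := (φ h).symm_apply_apply a
  have h2 : Sl σ (φ g) ((φ h)⁻¹ (φ h a)) m := by rw [e0]; exact hm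
  have h3 := Sl.comp (inv_pos.2 hn0) h1 h2
  have e1 : (φ g ∘ ((φ h)⁻¹ : K ≃o K)) (φ h a) = a := by
    rw [Function.comp_apply, e0, ha]
  have h4 : Sl σ (φ h) ((φ g ∘ ((φ h)⁻¹ : K ≃o K)) (φ h a)) n := by rw [e1]; exact hn
  have h5 := Sl.comp (mul_pos hm0 (inv_pos.2 hn0)) h3 h4
  have e2 : (φ (h * g * h⁻¹) : K → K) = φ h ∘ (φ g ∘ ((φ h)⁻¹ : K ≃o K)) := by
    rw [map_mul, map_mul, map_inv]
    rfl
  constructor
  · rw [e2, Function.comp_apply, e1]
  · rw [e2]
    have e3 : n * (m * n⁻¹) = m := by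
      field_simp
    rwa [e3] at h5

/-- elements with a fixed point are not conjugate to proper powers -/
theorem not_conj_pow (hPA : ∀ g, PA (φ g)) (hφ : Function.Injective φ) {g : Γ} (hg : g ≠ 1)
    (hfix : ∃ p, φ g p = p) {n : ℕ} (hn : 2 ≤ n) : ¬ IsConj g (g ^ n) := by
  intro hconj
  obtain ⟨h, hh⟩ := isConj_iff.1 hconj
  obtain ⟨σ₀, a₀, m₀, hσ₀, ha₀, hs₀, hm₀⟩ := exists_fixed_slope hPA hφ hg hfix
  set F : Set K := {m | ∃ σ a, (σ = 1 ∨ σ = -1) ∧ φ g a = a ∧ Sl σ (φ g) a m} with hF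
  have hFfin : F.Finite := by
    apply (hPA g).finite_slopes.subset
    rintro m ⟨σ, a, hσ, _, hs⟩
    exact ⟨σ, a, hσ, hs⟩
  have hFpos : ∀ m ∈ F, 0 < m := by
    rintro m ⟨σ, a, hσ, _, hs⟩
    exact hs.pos hσ (φ g).strictMono
  -- every element is an `n`-th power of an element
  have key : ∀ m ∈ F, ∃ m' ∈ F, m' ^ n = m := by
    rintro m ⟨σ, a, hσ, ha, hs⟩
    have hσ0 : σ ≠ 0 := by rcases hσ with rfl | rfl <;> norm_num
    obtain ⟨h1, h2⟩ := Sl.conj hPA (h := h) hσ hs ha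
    rw [hh] at h1 h2
    have hfixg : φ g (φ h a) = φ h a := by
      by_contra hne
      have hpow : ∀ k : ℕ, ∀ x, φ (g ^ (k + 1)) x = φ g (φ (g ^ k) x) := by
        intro k x
        rw [pow_succ', map_mul]
        rfl
      rcases lt_or_gt_of_ne hne with h3 | h3
      · have h4 : ∀ k : ℕ, φ (g ^ (k + 1)) (φ h a) < φ h a := by
          intro k
          induction k with
          | zero => simpa using h3
          | succ k ih =>
            rw [hpow]
            exact ((φ g).strictMono ih).trans h3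
        obtain ⟨k, rfl⟩ := Nat.exists_eq_add_of_le (show 1 ≤ n by omega)
        have h5 := h4 k
        rw [add_comm] at h1
        exact absurd h1 h5.ne
      · have h4 : ∀ k : ℕ, φ h a < φ (g ^ (k + 1)) (φ h a) := by
          intro k
          induction k with
          | zero => simpa using h3
          | succ k ih =>
            rw [hpow]
            exact h3.trans ((φ g).strictMono ih)
        obtain ⟨k, rfl⟩ := Nat.exists_eq_add_of_le (show 1 ≤ n by omega)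
        have h5 := h4 k
        rw [add_comm] at h1
        exact absurd h1 h5.ne'
    obtain ⟨m', hm'⟩ := (hPA g).exists_sl hσ (φ h a)
    refine ⟨m', ⟨σ, φ h a, hσ, hfixg, hm'⟩, ?_⟩
    exact (Sl.pow (hm'.pos hσ (φ g).strictMono) hm' hfixg n).2.unique hσ0 h2
  have hm₀F : m₀ ∈ F := ⟨σ₀, a₀, hσ₀, ha₀, hs₀⟩
  rcases lt_or_gt_of_ne hm₀ with hlt | hgt
  · -- the largest element below one
    have hfin : (F ∩ Set.Iio 1).Finite := hFfin.inter_of_left _
    obtain ⟨M, hM, hmax⟩ := hfin.exists_maximal ⟨m₀, hm₀F, hlt⟩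
    obtain ⟨m', hm', he⟩ := key M hM.1
    have hpos := hFpos m' hm'
    have h1 : m' < 1 := by
      by_contra hcon
      have := one_le_pow₀ (not_lt.1 hcon) (n := n)
      rw [he] at this
      exact absurd this (not_le.2 hM.2)
    have h2 : M < m' := by
      rw [← he]
      exact pow_lt_self_of_lt_one₀ hpos h1 (by omega)
    exact absurd (hmax ⟨hm', h1⟩ h2.le) (not_le.2 h2)
  · have hfin : (F ∩ Set.Ioi 1).Finite := hFfin.inter_of_left _
    obtain ⟨M, hM, hmin⟩ := hfin.exists_minimal ⟨m₀, hm₀F, hgt⟩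
    obtain ⟨m', hm', he⟩ := key M hM.1
    have hpos := hFpos m' hm'
    have h1 : 1 < m' := by
      by_contra hcon
      have := pow_le_one₀ hpos.le (not_lt.1 hcon) (n := n)
      rw [he] at this
      exact absurd this (not_le.2 hM.2)
    have h2 : m' < M := by
      rw [← he]
      exact lt_self_pow₀ h1 (by omega)
    exact absurd (hmin ⟨hm', h1⟩ h2.le) (not_le.2 h2)

/-- germs of powers -/
theorem Gb.pow {g : Γ} {m c : K} (h : Gb (φ g) m c) (n : ℕ) :
    ∃ d, Gb (φ (g ^ n)) (m ^ n) d ∧ (m = 1 → d = n * c) := by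
  have hm := h.pos (φ g).strictMono
  induction n with
  | zero =>
    refine ⟨0, ?_, fun _ => by simp⟩
    rw [pow_zero, map_one, pow_zero]
    exact Gb.one
  | succ n ih =>
    obtain ⟨d, h1, h2⟩ := ih
    refine ⟨m * d + c, ?_, fun hm1 => ?_⟩
    · have h3 := Gb.comp (g := φ g) (h := φ (g ^ n)) (pow_pos hm n) h1 h
      rw [pow_succ', map_mul, pow_succ']
      exact h3
    · rw [h2 hm1, hm1]
      push_cast
      ring

/-- fixed point free elements which are conjugate to powers -/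
theorem slope_of_conj_pow (hPA : ∀ g, PA (φ g)) {g h : Γ} (hg : ∀ p, φ g p ≠ p) {n : ℕ}
    (hn : 2 ≤ n) (hh : h * g * h⁻¹ = g ^ n) : ∃ c, Gb (φ h) n c := by
  obtain ⟨m0, c0, h0⟩ := (hPA g).exists_gb
  obtain ⟨m1, c1, h1⟩ := (hPA h).exists_gb
  have p0 := h0.pos (φ g).strictMono
  have p1 := h1.pos (φ h).strictMono
  obtain ⟨d, hd, hd1⟩ := h0.pow n
  have hcomm : (φ h : K → K) ∘ φ g = φ (g ^ n) ∘ φ h := by
    funext t
    have h3 : h * g = g ^ n * h := by rw [← hh]; group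
    have h4 := congrArg (fun x => φ x t) h3
    simp only [map_mul] at h4
    exact h4
  have a1 := Gb.comp p0 h0 h1
  have a2 := Gb.comp p1 h1 hd
  rw [hcomm] at a1
  obtain ⟨e1, e2⟩ := a1.unique a2
  have e3 : m0 = m0 ^ n := by
    have : m1 * (m0 - m0 ^ n) = 0 := by linear_combination e1
    rcases mul_eq_zero.1 this with h3 | h3
    · exact absurd h3 p1.ne'
    · exact sub_eq_zero.1 h3
  have hm0 : m0 = 1 := by
    rcases lt_trichotomy m0 1 with h3 | h3 | h3
    · exact absurd e3 (pow_lt_self_of_lt_one₀ p0 h3 (by omega)).ne'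
    · exact h3
    · exact absurd e3 (lt_self_pow₀ h3 (by omega)).ne
  have hc0 : c0 ≠ 0 := by
    rintro rfl
    subst hm0
    obtain ⟨b, hb⟩ := h0
    apply hg b
    rw [hb b le_rfl]
    ring
  refine ⟨c1, ?_⟩
  have e4 : m1 = n := by
    rw [hd1 hm0, hm0, one_pow] at e2
    have : (m1 - n) * c0 = 0 := by linear_combination e2
    rcases mul_eq_zero.1 this with h3 | h3
    · exact sub_eq_zero.1 h3
    · exact absurd h3 hc0
  rw [← e4]
  exact h1

/-- in a finitely generated group there are arbitrarily large primes `p` such that `g` is not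
conjugate to `g ^ (p ^ j)` -/
theorem large_prime [Group.FG Γ] (hPA : ∀ g, PA (φ g)) (hφ : Function.Injective φ) {g : Γ}
    (hg : g ≠ 1) (N : ℕ) : ∃ p : ℕ, N < p ∧ p.Prime ∧ ∀ j, 1 ≤ j → ¬ IsConj g (g ^ p ^ j) := by
  have hfin := finite_bad hPA hφ
  obtain ⟨p, ⟨hp, hgood⟩, hN⟩ := ((Nat.infinite_setOfPred_prime.sdiff hfin)).exists_gt N
  have hgood' : Pool.Agent.H23R2.GoodPrime Γ p := by
    by_contra hcon
    exact hgood ⟨hp, hcon⟩
  refine ⟨p, hN, hp, fun j hj hconj => ?_⟩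
  obtain ⟨c, hc⟩ := isConj_iff.1 hconj
  obtain ⟨k, hk⟩ := hgood'.div g hg
  -- iterated roots
  have h2 : ∀ m : ℕ, (c⁻¹ ^ m * g * (c⁻¹ ^ m)⁻¹) ^ p ^ (j * m) = g := by
    intro m
    induction m with
    | zero => simp
    | succ m ih =>
      have h1 : g = c⁻¹ * g ^ p ^ j * c := by
        rw [← hc]
        group
      have h2 : (c⁻¹ ^ (m + 1) * g * (c⁻¹ ^ (m + 1))⁻¹) ^ p ^ j =
          c⁻¹ ^ m * g * (c⁻¹ ^ m)⁻¹ := by
        rw [conj_pow]
        conv_rhs => rw [h1]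
        rw [pow_succ]
        group
      calc (c⁻¹ ^ (m + 1) * g * (c⁻¹ ^ (m + 1))⁻¹) ^ p ^ (j * (m + 1))
          = ((c⁻¹ ^ (m + 1) * g * (c⁻¹ ^ (m + 1))⁻¹) ^ p ^ j) ^ p ^ (j * m) := by
            rw [← pow_mul, ← pow_add, show j * (m + 1) = j + j * m by ring]
        _ = g := by rw [h2, ih]
  have h3 := h2 k
  obtain ⟨l, hl⟩ := Nat.exists_eq_add_of_le (Nat.le_mul_of_pos_left k hj : k ≤ j * k)
  rw [hl, add_comm, pow_add, pow_mul] at h3
  exact hk _ h3

/-- elements which are not highly divisible by `p` are not conjugate to `p ^ j`-th powers -/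
theorem not_conj_of_div {H : Type*} [Group H] (g c : H) {p j k : ℕ} (hj : 1 ≤ j)
    (hk : ∀ x : H, x ^ p ^ k ≠ g) : c * g * c⁻¹ ≠ g ^ p ^ j := by
  intro hc
  have h2 : ∀ m : ℕ, (c⁻¹ ^ m * g * (c⁻¹ ^ m)⁻¹) ^ p ^ (j * m) = g := by
    intro m
    induction m with
    | zero => simp
    | succ m ih =>
      have h1 : g = c⁻¹ * g ^ p ^ j * c := by
        rw [← hc]
        group
      have h2 : (c⁻¹ ^ (m + 1) * g * (c⁻¹ ^ (m + 1))⁻¹) ^ p ^ j =
          c⁻¹ ^ m * g * (c⁻¹ ^ m)⁻¹ := by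
        rw [conj_pow]
        conv_rhs => rw [h1]
        rw [pow_succ]
        group
      calc (c⁻¹ ^ (m + 1) * g * (c⁻¹ ^ (m + 1))⁻¹) ^ p ^ (j * (m + 1))
          = ((c⁻¹ ^ (m + 1) * g * (c⁻¹ ^ (m + 1))⁻¹) ^ p ^ j) ^ p ^ (j * m) := by
            rw [← pow_mul, ← pow_add, show j * (m + 1) = j + j * m by ring]
        _ = g := by rw [h2, ih]
  have h3 := h2 k
  obtain ⟨l, hl⟩ := Nat.exists_eq_add_of_le (Nat.le_mul_of_pos_left k hj : k ≤ j * k)
  rw [hl, add_comm, pow_add, pow_mul] at h3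
  exact hk _ h3

end Pool.Agent.X263.PL
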