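import Pool.Agent.X263.PL.Grp
import Pool.Agent.H23R2.Lin

/-!
The representation on the germs at `-∞`, and the conditions on roots.
-/

set_option autoImplicit false

namespace Pool.Agent.X263.PL

open Pool.Agent.Y72.Un Pool.Agent.Y72.Log Pool.Agent.Y72.Dt Pool.Agent.H23R2

variable {K : Type*} [Field K] [LinearOrder K] [IsStrictOrderedRing K]
  {Γ : Type*} [Group Γ] {φ : Γ →* (K ≃o K)}

/-- the slope of the germ at `-∞` -/
noncomputable def gm {f : K → K} (h : PA f) : K := h.exists_gb.choose

/-- the translation part of the germ at `-∞` -/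
noncomputable def gc {f : K → K} (h : PA f) : K := h.exists_gb.choose_spec.choose

theorem gb_spec {f : K → K} (h : PA f) : Gb f (gm h) (gc h) := h.exists_gb.choose_spec.choose_spec

theorem gm_eq {f : K → K} (h : PA f) {m c : K} (hg : Gb f m c) : gm h = m := ((gb_spec h).unique hg).1

theorem gc_eq {f : K → K} (h : PA f) {m c : K} (hg : Gb f m c) : gc h = c := ((gb_spec h).unique hg).2

/-- the affine matrix of the germ at `-∞` -/
noncomputable def affM (hPA : ∀ g, PA (φ g)) : Γ →* Matrix (Fin 2) (Fin 2) K where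
  toFun g := !![gm (hPA g), gc (hPA g); 0, 1]
  map_one' := by
    have h1 : Gb (φ (1 : Γ)) (1 : K) 0 := by
      rw [map_one]
      exact Gb.one
    rw [gm_eq (hPA 1) h1, gc_eq (hPA 1) h1]
    exact Matrix.one_fin_two.symm
  map_mul' x y := by
    have hx := gb_spec (hPA x)
    have hy := gb_spec (hPA y)
    have h3 := Gb.comp (g := φ x) (h := φ y) (hy.pos (φ y).strictMono) hy hx
    have h4 : (φ x : K → K) ∘ φ y = φ (x * y) := by
      rw [map_mul]
      rfl
    rw [h4] at h3
    rw [gm_eq (hPA (x * y)) h3, gc_eq (hPA (x * y)) h3, Matrix.mul_fin_two]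
    simp

theorem affM_apply (hPA : ∀ g, PA (φ g)) {g : Γ} {m c : K} (h : Gb (φ g) m c) :
    affM hPA g = !![m, c; 0, 1] := by
  change !![gm (hPA g), gc (hPA g); 0, 1] = _
  rw [gm_eq (hPA g) h, gc_eq (hPA g) h]

/-- the representation on the germs at `-∞` -/
noncomputable def aff (hPA : ∀ g, PA (φ g)) : Γ →* GL (Fin 2) K := (affM hPA).toHomUnits

theorem aff_val (hPA : ∀ g, PA (φ g)) (g : Γ) : (aff hPA g).val = affM hPA g := rfl

/-- the image is torsion-free -/
theorem aff_tf (hPA : ∀ g, PA (φ g)) (g : Γ) (n : ℕ) (hn : 0 < n) (h : aff hPA g ^ n = 1) :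
    aff hPA g = 1 := by
  obtain ⟨m, c, hg⟩ := (hPA g).exists_gb
  have hm := hg.pos (φ g).strictMono
  have h1 : (!![m, c; 0, 1] : Matrix (Fin 2) (Fin 2) K) ^ n = 1 := by
    rw [← affM_apply hPA hg, ← aff_val, ← Units.val_pow_eq_pow_val, h, Units.val_one]
  have key : ∀ k : ℕ, (!![m, c; 0, 1] : Matrix (Fin 2) (Fin 2) K) ^ k =
      !![m ^ k, (∑ i ∈ Finset.range k, m ^ i) * c; 0, 1] := by
    intro k
    induction k with
    | zero => simp [Matrix.one_fin_two]
    | succ k ih =>
      rw [pow_succ', ih, Matrix.mul_fin_two, Finset.sum_range_succ']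
      congr 1
      ext i j
      fin_cases i <;> fin_cases j
      · simp [pow_succ']
      · simp only [Finset.mul_sum, Finset.sum_mul, pow_succ', pow_zero, one_mul, mul_one]
        simp [Finset.mul_sum, Finset.sum_mul, mul_assoc, add_mul]
      · simp
      · simp
  rw [key n] at h1
  have e1 := congrFun (congrFun h1 0) 0
  have e2 := congrFun (congrFun h1 0) 1
  simp at e1 e2
  have e3 : m = 1 := by
    have := (pow_eq_one_iff_of_nonneg hm.le hn.ne').mp e1
    exact this
  subst e3
  have e4 : c = 0 := by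
    rcases e2 with e2 | e2
    · simp at e2
      exact absurd e2 hn.ne'
    · exact e2
  apply Units.ext
  rw [aff_val, affM_apply hPA hg, e4, Units.val_one, Matrix.one_fin_two]

theorem aff_ne (hPA : ∀ g, PA (φ g)) {c : Γ} (hc : ∀ p, φ c p ≠ p) : aff hPA c ≠ 1 := by
  intro h
  obtain ⟨m, d, hg⟩ := (hPA c).exists_gb
  have h1 : affM hPA c = 1 := congrArg Units.val h
  rw [affM_apply hPA hg, Matrix.one_fin_two] at h1
  have e1 := congrFun (congrFun h1 0) 0
  have e2 := congrFun (congrFun h1 0) 1
  simp at e1 e2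
  obtain ⟨b, hb⟩ := hg
  apply hc b
  rw [hb b le_rfl, e1, e2]
  ring

/-- the image as a group -/
theorem range_tf (hPA : ∀ g, PA (φ g)) (x : (aff hPA).range) (n : ℕ) (hn : 0 < n)
    (h : x ^ n = 1) : x = 1 := by
  obtain ⟨_, g, rfl⟩ := x
  have h1 : aff hPA g ^ n = 1 := congrArg Subtype.val h
  exact Subtype.ext (aff_tf hPA g n hn h1)

theorem range_fg [Group.FG Γ] (hPA : ∀ g, PA (φ g)) : Group.FG (aff hPA).range :=
  Group.fg_of_surjective (aff hPA).rangeRestrict_surjective

/-- **the conditions on centralisers and roots** -/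
theorem cn_fg [Group.FG Γ] (hPA : ∀ g, PA (φ g)) (hφ : Function.Injective φ) : Cn Γ := by
  refine ⟨fun g m hm h => tors_free hφ hPA g m hm h, ur hφ hPA, ?_, ?_⟩
  · intro c hc
    rcases dichotomy hPA hφ hc with h | h
    · exact fd_ca h
    · have := range_fg hPA
      have h1 : Cn (⊤ : Subgroup (aff hPA).range) :=
        cn_of (aff hPA).range.subtype (aff hPA).range.subtype_injective (range_tf hPA)
          (Or.inr (Or.inl le_rfl)) ⊤ (Group.fg_def.1 this)
      have h2 := h1.fd ⟨(aff hPA).rangeRestrict c, Subgroup.mem_top _⟩ (by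
        intro h3
        apply aff_ne hPA h
        exact congrArg (fun x => ((x : (⊤ : Subgroup (aff hPA).range)) : (aff hPA).range).1) h3)
      apply h2.subset
      rintro l ⟨hl, x, hx⟩
      refine ⟨hl, ⟨(aff hPA).rangeRestrict x, Subgroup.mem_top _⟩, ?_⟩
      apply Subtype.ext
      change (aff hPA).rangeRestrict x ^ l = (aff hPA).rangeRestrict c
      rw [← map_pow, hx]
  · intro c hc
    rcases dichotomy hPA hφ hc with h | h
    · exact Or.inl h
    · exact Or.inr (cb_of_free hPA hφ h)

/-- the conditions for all finitely generated subgroups -/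
theorem cn_PL (hPA : ∀ g, PA (φ g)) (hφ : Function.Injective φ) (H : Subgroup Γ) (hH : H.FG) :
    Cn H := by
  have : Group.FG H := (Group.fg_iff_subgroup_fg H).2 hH
  exact cn_fg (φ := φ.comp H.subtype) (fun g => hPA g) (hφ.comp H.subtype_injective)

/-- all but finitely many primes are good -/
theorem finite_bad [Group.FG Γ] (hPA : ∀ g, PA (φ g)) (hφ : Function.Injective φ) :
    {p : ℕ | p.Prime ∧ ¬ GoodPrime Γ p}.Finite := by
  have := range_fg hPA
  have : CharZero K := inferInstance
  have h1 := finite_bad_primes (H := (aff hPA).range) (range_tf hPA) (aff hPA).range.subtype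
    (aff hPA).range.subtype_injective
  apply (h1.union (Set.finite_singleton 2)).subset
  rintro p ⟨hp, hbad⟩
  by_contra hcon
  simp only [Set.mem_union, Set.mem_singleton_iff, not_or, Set.mem_setOf_eq, not_and, not_not] at hcon
  obtain ⟨h2, h3⟩ := hcon
  have hgood := h2 hp
  apply hbad
  refine ⟨hp, h3, fun x y hxy => roots hφ hPA x y p hp.pos hxy, fun c hc => ?_⟩
  rcases dichotomy hPA hφ hc with ⟨f, hf, hfc⟩ | h
  · -- divisibility of `f c`
    refine ⟨(f c).natAbs, fun x hx => ?_⟩
    have h4 := pow_dvd_f hf (l := p ^ (f c).natAbs) (x := x) (by rw [hx])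
    have h5 : p ^ (f c).natAbs ≤ (f c).natAbs := by
      apply Nat.le_of_dvd (Int.natAbs_pos.2 hfc)
      rw [← Int.natCast_dvd]
      exact h4
    exact absurd (Nat.lt_pow_self hp.one_lt) (not_lt.mpr h5)
  · obtain ⟨k, hk⟩ := hgood.div ((aff hPA).rangeRestrict c) (by
      intro h3
      exact aff_ne hPA h (congrArg Subtype.val h3))
    refine ⟨k, fun x hx => hk ((aff hPA).rangeRestrict x) ?_⟩
    rw [← map_pow, hx]

end Pool.Agent.X263.PL
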