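import Mathlib

/-!
Piecewise affine order automorphisms (with finitely many pieces) of a linearly ordered field:
germs, slopes, first points.
-/

set_option autoImplicit false

namespace Pool.Agent.X263.PL

section pos

variable {Ω : Type*} [LinearOrder Ω]

/-- the first nontrivial germ is positive -/
def Pos (g : Ω ≃o Ω) : Prop := ∃ t, t < g t ∧ ∀ s, s ≤ t → s ≤ g s

theorem pos_mul {g h : Ω ≃o Ω} (hg : Pos g) (hh : Pos h) : Pos (g * h) := by
  obtain ⟨t, ht, h1⟩ := hg
  obtain ⟨u, hu, h2⟩ := hh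
  refine ⟨min t u, ?_, ?_⟩
  · rcases le_total t u with h | h
    · rw [min_eq_left h]
      exact lt_of_lt_of_le ht (g.monotone (h2 t h))
    · rw [min_eq_right h]
      exact lt_of_le_of_lt (h1 u h) (g.strictMono hu)
  · intro s hs
    exact (h1 s (hs.trans (min_le_left _ _))).trans (g.monotone (h2 s (hs.trans (min_le_right _ _))))

theorem pos_conj {g : Ω ≃o Ω} (hg : Pos g) (d : Ω ≃o Ω) : Pos (d * g * d⁻¹) := by
  obtain ⟨t, ht, h1⟩ := hg
  have hd : ∀ x, d⁻¹ (d x) = x := fun x => d.symm_apply_apply x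
  have hd' : ∀ x, d (d⁻¹ x) = x := fun x => d.apply_symm_apply x
  refine ⟨d t, ?_, ?_⟩
  · change d t < d (g (d⁻¹ (d t)))
    rw [hd]
    exact d.strictMono ht
  · intro s hs
    change s ≤ d (g (d⁻¹ s))
    have h2 : d⁻¹ s ≤ t := by
      rw [← hd t]
      exact (d⁻¹).monotone hs
    calc s = d (d⁻¹ s) := (hd' s).symm
      _ ≤ d (g (d⁻¹ s)) := d.monotone (h1 _ h2)

theorem not_pos_one : ¬ Pos (1 : Ω ≃o Ω) := by
  rintro ⟨t, ht, _⟩
  exact lt_irrefl _ ht

theorem pos_inv_of {g : Ω ≃o Ω} {t : Ω} (ht : g t < t) (h : ∀ s, s ≤ t → g s ≤ s) : Pos g⁻¹ := by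
  have hd : ∀ x, g⁻¹ (g x) = x := fun x => g.symm_apply_apply x
  have hd' : ∀ x, g (g⁻¹ x) = x := fun x => g.apply_symm_apply x
  refine ⟨g t, ?_, ?_⟩
  · rw [hd]
    exact ht
  · intro s hs
    have h1 : g⁻¹ s ≤ t := by
      rw [← hd t]
      exact (g⁻¹).monotone hs
    have h2 := h _ h1
    rwa [hd'] at h2

/-- powers of elements which differ by a positive element -/
theorem pow_pos_diff {x y : Ω ≃o Ω} (h : Pos (x⁻¹ * y)) (n : ℕ) (hn : 0 < n) :
    Pos ((x ^ n)⁻¹ * y ^ n) := by
  induction n with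
  | zero => exact absurd hn (lt_irrefl _)
  | succ n ih =>
    rcases Nat.eq_zero_or_pos n with h0 | h0
    · subst h0
      simpa using h
    · have h1 := pos_mul (pos_conj (ih h0) x⁻¹) h
      have h2 : x⁻¹ * ((x ^ n)⁻¹ * y ^ n) * x⁻¹⁻¹ * (x⁻¹ * y) = (x ^ (n + 1))⁻¹ * y ^ (n + 1) := by
        rw [pow_succ x, pow_succ y]
        group
      rwa [h2] at h1

/-- roots are unique among elements with nontrivial first germs -/
theorem roots_unique {x y : Ω ≃o Ω} (hd : x⁻¹ * y = 1 ∨ Pos (x⁻¹ * y) ∨ Pos (x⁻¹ * y)⁻¹)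
    (n : ℕ) (hn : 0 < n) (h : x ^ n = y ^ n) : x = y := by
  rcases hd with h1 | h1 | h1
  · exact (inv_mul_eq_one.mp h1)
  · have h2 := pow_pos_diff h1 n hn
    rw [h, inv_mul_cancel] at h2
    exact absurd h2 not_pos_one
  · have h3 : Pos (y⁻¹ * x) := by
      rwa [mul_inv_rev, inv_inv] at h1
    have h2 := pow_pos_diff h3 n hn
    rw [h, inv_mul_cancel] at h2
    exact absurd h2 not_pos_one

end pos

section pa

variable {K : Type*} [Field K] [LinearOrder K] [IsStrictOrderedRing K]

/-- `f` is piecewise affine with finitely many pieces: there is a finite set `S` such that `f` is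
affine on every closed interval without points of `S` in its interior. -/
def PA (f : K → K) : Prop :=
  ∃ S : Finset K, ∀ a b : K, a ≤ b → (∀ s ∈ S, ¬ (a < s ∧ s < b)) →
    ∃ m c : K, ∀ x, a ≤ x → x ≤ b → f x = m * x + c

/-- two affine functions which agree at two points are equal -/
theorem affine_unique {m c m' c' x y : K} (hxy : x ≠ y) (h1 : m * x + c = m' * x + c')
    (h2 : m * y + c = m' * y + c') : m = m' ∧ c = c' := by
  have h3 : (m - m') * (x - y) = 0 := by linear_combination h1 - h2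
  have h4 : m = m' := by
    rcases mul_eq_zero.mp h3 with h | h
    · exact sub_eq_zero.mp h
    · exact absurd (sub_eq_zero.mp h) hxy
  subst h4
  exact ⟨rfl, by linear_combination h1⟩

/-- the germ at `-∞` -/
theorem germ_bot {f : K → K} {S : Finset K} (hS : ∀ a b : K, a ≤ b → (∀ s ∈ S, ¬ (a < s ∧ s < b)) →
    ∃ m c : K, ∀ x, a ≤ x → x ≤ b → f x = m * x + c) (b : K) (hb : ∀ s ∈ S, b ≤ s) :
    ∃ m c : K, ∀ x, x ≤ b → f x = m * x + c := by
  obtain ⟨m, c, h1⟩ := hS (b - 1) b (by linarith) (fun s hs h => absurd h.2 (not_lt.mpr (hb s hs)))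
  refine ⟨m, c, fun x hx => ?_⟩
  rcases le_total (b - 1) x with h | h
  · exact h1 x h hx
  · obtain ⟨m', c', h2⟩ := hS x b hx (fun s hs h => absurd h.2 (not_lt.mpr (hb s hs)))
    have e1 := h2 b hx le_rfl
    have e2 := h2 (b - 1) h (by linarith)
    rw [h1 b (by linarith) le_rfl] at e1
    rw [h1 (b - 1) le_rfl (by linarith)] at e2
    obtain ⟨h3, h4⟩ := affine_unique (x := b) (y := b - 1) (by intro h; linarith) e1 e2
    rw [h2 x le_rfl hx, h3, h4]

/-- the germ at `+∞` -/
theorem germ_top {f : K → K} {S : Finset K} (hS : ∀ a b : K, a ≤ b → (∀ s ∈ S, ¬ (a < s ∧ s < b)) →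
    ∃ m c : K, ∀ x, a ≤ x → x ≤ b → f x = m * x + c) (a : K) (ha : ∀ s ∈ S, s ≤ a) :
    ∃ m c : K, ∀ x, a ≤ x → f x = m * x + c := by
  obtain ⟨m, c, h1⟩ := hS a (a + 1) (by linarith) (fun s hs h => absurd h.1 (not_lt.mpr (ha s hs)))
  refine ⟨m, c, fun x hx => ?_⟩
  rcases le_total x (a + 1) with h | h
  · exact h1 x hx h
  · obtain ⟨m', c', h2⟩ := hS a x hx (fun s hs h => absurd h.1 (not_lt.mpr (ha s hs)))
    have e1 := h2 a le_rfl hx
    have e2 := h2 (a + 1) (by linarith) h
    rw [h1 a le_rfl (by linarith)] at e1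
    rw [h1 (a + 1) (by linarith) le_rfl] at e2
    obtain ⟨h3, h4⟩ := affine_unique (x := a) (y := a + 1) (by intro h; linarith) e1 e2
    rw [h2 x hx le_rfl, h3, h4]

omit [IsStrictOrderedRing K] in
theorem exists_le_all (S : Finset K) : ∃ b : K, ∀ s ∈ S, b ≤ s := by
  rcases S.eq_empty_or_nonempty with h | h
  · exact ⟨0, by simp [h]⟩
  · exact ⟨S.min' h, fun s hs => S.min'_le s hs⟩

/-- no point of `S` in a right neighbourhood -/
theorem exists_right (S : Finset K) (a : K) : ∃ b, a < b ∧ ∀ s ∈ S, ¬ (a < s ∧ s < b) := by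
  rcases (S.filter (fun s => a < s)).eq_empty_or_nonempty with h | h
  · refine ⟨a + 1, by linarith, fun s hs h1 => ?_⟩
    have : s ∈ S.filter (fun s => a < s) := Finset.mem_filter.mpr ⟨hs, h1.1⟩
    rw [h] at this
    exact absurd this (Finset.notMem_empty _)
  · refine ⟨(S.filter (fun s => a < s)).min' h, ?_, fun s hs h1 => ?_⟩
    · exact (Finset.mem_filter.mp (Finset.min'_mem _ h)).2
    · exact absurd h1.2 (not_lt.mpr (Finset.min'_le _ s (Finset.mem_filter.mpr ⟨hs, h1.1⟩)))

/-- no point of `S` in a left neighbourhood -/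
theorem exists_left (S : Finset K) (a : K) : ∃ b, b < a ∧ ∀ s ∈ S, ¬ (b < s ∧ s < a) := by
  rcases (S.filter (fun s => s < a)).eq_empty_or_nonempty with h | h
  · refine ⟨a - 1, by linarith, fun s hs h1 => ?_⟩
    have : s ∈ S.filter (fun s => s < a) := Finset.mem_filter.mpr ⟨hs, h1.2⟩
    rw [h] at this
    exact absurd this (Finset.notMem_empty _)
  · refine ⟨(S.filter (fun s => s < a)).max' h, ?_, fun s hs h1 => ?_⟩
    · exact (Finset.mem_filter.mp (Finset.max'_mem _ h)).2
    · exact absurd h1.1 (not_lt.mpr (Finset.le_max' _ s (Finset.mem_filter.mpr ⟨hs, h1.2⟩)))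

/-- the germ at `-∞` of `f` is `x ↦ m x + c` -/
def Gb (f : K → K) (m c : K) : Prop := ∃ b, ∀ x, x ≤ b → f x = m * x + c

theorem PA.exists_gb {f : K → K} (hf : PA f) : ∃ m c, Gb f m c := by
  obtain ⟨S, hS⟩ := hf
  obtain ⟨b, hb⟩ := exists_le_all S
  obtain ⟨m, c, h⟩ := germ_bot hS b hb
  exact ⟨m, c, b, h⟩

theorem Gb.unique {f : K → K} {m c m' c' : K} (h : Gb f m c) (h' : Gb f m' c') :
    m = m' ∧ c = c' := by
  obtain ⟨b, h1⟩ := h
  obtain ⟨b', h2⟩ := h'
  set t := min b b' with ht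
  have e1 := (h1 t (min_le_left _ _)).symm.trans (h2 t (min_le_right _ _))
  have e2 := (h1 (t - 1) (by linarith [min_le_left b b'])).symm.trans
    (h2 (t - 1) (by linarith [min_le_right b b']))
  exact affine_unique (by intro h; linarith) e1 e2

/-- the leftmost point of the support -/
theorem first_support {f : K → K} (hf : PA f) (hb : ∃ b, ∀ x, x ≤ b → f x = x)
    (hne : ∃ p, f p ≠ p) :
    ∃ a b m : K, a < b ∧ m ≠ 1 ∧ (∀ x, x ≤ a → f x = x) ∧
      ∀ x, a ≤ x → x ≤ b → f x = a + m * (x - a) := by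
  classical
  obtain ⟨S, hS⟩ := hf
  obtain ⟨b₀, hb₀⟩ := hb
  set S' := insert b₀ S with hS'def
  have hS' : ∀ a b : K, a ≤ b → (∀ s ∈ S', ¬ (a < s ∧ s < b)) →
      ∃ m c : K, ∀ x, a ≤ x → x ≤ b → f x = m * x + c := fun a b hab h =>
    hS a b hab fun s hs => h s (Finset.mem_insert_of_mem hs)
  set T := S'.filter (fun s => ∀ x, x ≤ s → f x = x) with hT
  have hTne : T.Nonempty := ⟨b₀, Finset.mem_filter.mpr ⟨Finset.mem_insert_self _ _, hb₀⟩⟩
  set a := T.max' hTne with ha
  have ha1 : ∀ x, x ≤ a → f x = x := (Finset.mem_filter.mp (T.max'_mem hTne)).2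
  have ha2 : ∀ s ∈ S', (∀ x, x ≤ s → f x = x) → s ≤ a := fun s hs h =>
    T.le_max' s (Finset.mem_filter.mpr ⟨hs, h⟩)
  obtain ⟨p, hp⟩ := hne
  have hap : a < p := by
    by_contra h1
    exact hp (ha1 p (not_lt.mp h1))
  rcases (S'.filter (fun s => a < s)).eq_empty_or_nonempty with h | h
  · have hle : ∀ s ∈ S', s ≤ a := by
      intro s hs
      by_contra h1
      have : s ∈ S'.filter (fun s => a < s) := Finset.mem_filter.mpr ⟨hs, not_le.mp h1⟩
      rw [h] at this
      exact absurd this (Finset.notMem_empty _)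
    obtain ⟨m, c, h1⟩ := germ_top hS' a hle
    have h2 : m * a + c = a := by rw [← h1 a le_rfl, ha1 a le_rfl]
    refine ⟨a, a + 1, m, by linarith, ?_, ha1, fun x hx _ => ?_⟩
    · rintro rfl
      apply hp
      rw [h1 p hap.le]
      linear_combination h2
    · rw [h1 x hx]
      linear_combination h2
  · set s' := (S'.filter (fun s => a < s)).min' h with hs'
    have hs'1 := Finset.mem_filter.mp ((S'.filter (fun s => a < s)).min'_mem h)
    have hs'2 : ∀ s ∈ S', ¬ (a < s ∧ s < s') := fun s hs h1 =>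
      absurd h1.2 (not_lt.mpr (Finset.min'_le _ s (Finset.mem_filter.mpr ⟨hs, h1.1⟩)))
    obtain ⟨m, c, h1⟩ := hS' a s' hs'1.2.le hs'2
    have h2 : m * a + c = a := by rw [← h1 a le_rfl hs'1.2.le, ha1 a le_rfl]
    refine ⟨a, s', m, hs'1.2, ?_, ha1, fun x hx hx' => ?_⟩
    · rintro rfl
      have h3 : s' ≤ a := by
        apply ha2 s' hs'1.1
        intro x hx
        rcases le_total x a with h4 | h4
        · exact ha1 x h4
        · rw [h1 x h4 hx]
          linear_combination h2
      exact absurd hs'1.2 (not_lt.mpr h3)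
    · rw [h1 x hx hx']
      linear_combination h2

/-- the leftmost fixed point -/
theorem first_fixed {f : K → K} (hf : PA f) (hb : ¬ ∃ b, ∀ x, x ≤ b → f x = x)
    (hp : ∃ p, f p = p) : ∃ a, f a = a ∧ ∀ x, x < a → f x ≠ x := by
  classical
  obtain ⟨S, hS⟩ := hf
  suffices h : ∀ (n : ℕ) (p : K), f p = p → (S.filter (fun s => s < p)).card = n →
      ∃ a, f a = a ∧ ∀ x, x < a → f x ≠ x by
    obtain ⟨p, hp⟩ := hp
    exact h _ p hp rfl
  intro n
  induction n using Nat.strong_induction_on with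
  | _ n ih =>
    intro p hp hcard
    by_cases hmin : ∀ x, x < p → f x ≠ x
    · exact ⟨p, hp, hmin⟩
    push Not at hmin
    obtain ⟨q, hqp, hq⟩ := hmin
    have hsub : S.filter (fun s => s < q) ⊆ S.filter (fun s => s < p) := by
      intro s hs
      rw [Finset.mem_filter] at hs ⊢
      exact ⟨hs.1, hs.2.trans hqp⟩
    rcases lt_or_eq_of_le (Finset.card_le_card hsub) with hlt | heq
    · exact ih _ (hcard ▸ hlt) q hq rfl
    · have hSeq : S.filter (fun s => s < q) = S.filter (fun s => s < p) :=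
        Finset.eq_of_subset_of_card_le hsub heq.ge
      have hid : ∀ t, t ≤ q → (∀ s ∈ S, ¬ (t < s ∧ s < p)) → f t = t := by
        intro t ht hno
        obtain ⟨m, c, h1⟩ := hS t p (ht.trans hqp.le) hno
        have e1 : m * q + c = 1 * q + 0 := by rw [← h1 q ht hqp.le, hq]; ring
        have e2 : m * p + c = 1 * p + 0 := by rw [← h1 p (ht.trans hqp.le) le_rfl, hp]; ring
        obtain ⟨h3, h4⟩ := affine_unique hqp.ne e1 e2
        rw [h1 t le_rfl (ht.trans hqp.le), h3, h4]
        ring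
      rcases (S.filter (fun s => s < q)).eq_empty_or_nonempty with h | h
      · exfalso
        apply hb
        refine ⟨q, fun t ht => hid t ht fun s hs h1 => ?_⟩
        have : s ∈ S.filter (fun s => s < p) := Finset.mem_filter.mpr ⟨hs, h1.2⟩
        rw [← hSeq, h] at this
        exact absurd this (Finset.notMem_empty _)
      · set s0 := (S.filter (fun s => s < q)).max' h with hs0
        have hs01 := Finset.mem_filter.mp ((S.filter (fun s => s < q)).max'_mem h)
        have h5 : f s0 = s0 := by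
          apply hid s0 hs01.2.le
          intro s hs h1
          have : s ∈ S.filter (fun s => s < p) := Finset.mem_filter.mpr ⟨hs, h1.2⟩
          rw [← hSeq] at this
          exact absurd h1.1 (not_lt.mpr (Finset.le_max' _ s this))
        refine ih _ ?_ s0 h5 rfl
        rw [← hcard, ← hSeq]
        apply Finset.card_lt_card
        refine ⟨fun s hs => ?_, fun hcon => ?_⟩
        · rw [Finset.mem_filter] at hs ⊢
          exact ⟨hs.1, hs.2.trans hs01.2⟩
        · have := hcon (Finset.max'_mem _ h)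
          rw [Finset.mem_filter] at this
          exact absurd this.2 (lt_irrefl _)

/-- elements of positive germ at `-∞` -/
theorem pos_of_gb {g : K ≃o K} {m c : K} (h : Gb g m c) (hmc : m < 1 ∨ (m = 1 ∧ 0 < c)) :
    Pos g := by
  obtain ⟨b, hb⟩ := h
  rcases hmc with hm | ⟨rfl, hc⟩
  · have h1 : 0 < 1 - m := by linarith
    set t := min b (c / (1 - m) - 1) with ht
    have h2 : ∀ s, s ≤ t → s < g s := by
      intro s hs
      rw [hb s (hs.trans (min_le_left _ _))]
      have h3 : s < c / (1 - m) := by linarith [hs.trans (min_le_right _ _)]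
      rw [lt_div_iff₀ h1] at h3
      linarith
    exact ⟨t, h2 t le_rfl, fun s hs => (h2 s hs).le⟩
  · refine ⟨b, ?_, fun s hs => ?_⟩
    · rw [hb b le_rfl]; linarith
    · rw [hb s hs]; linarith

theorem neg_of_gb {g : K ≃o K} {m c : K} (h : Gb g m c) (hmc : 1 < m ∨ (m = 1 ∧ c < 0)) :
    Pos g⁻¹ := by
  obtain ⟨b, hb⟩ := h
  rcases hmc with hm | ⟨rfl, hc⟩
  · have h1 : 0 < m - 1 := by linarith
    set t := min b (-c / (m - 1) - 1) with ht
    have h2 : ∀ s, s ≤ t → g s < s := by
      intro s hs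
      rw [hb s (hs.trans (min_le_left _ _))]
      have h3 : s < -c / (m - 1) := by linarith [hs.trans (min_le_right _ _)]
      rw [lt_div_iff₀ h1] at h3
      linarith
    exact pos_inv_of (h2 t le_rfl) fun s hs => (h2 s hs).le
  · refine pos_inv_of (t := b) ?_ fun s hs => ?_
    · rw [hb b le_rfl]; linarith
    · rw [hb s hs]; linarith

/-- trichotomy -/
theorem trichotomy {g : K ≃o K} (hg : PA g) : g = 1 ∨ Pos g ∨ Pos g⁻¹ := by
  by_cases h1 : g = 1
  · exact Or.inl h1
  right
  obtain ⟨m, c, hmc⟩ := hg.exists_gb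
  rcases lt_trichotomy m 1 with h | h | h
  · exact Or.inl (pos_of_gb hmc (Or.inl h))
  · rcases lt_trichotomy c 0 with h' | h' | h'
    · exact Or.inr (neg_of_gb hmc (Or.inr ⟨h, h'⟩))
    · subst h h'
      have hid : ∃ b, ∀ x, x ≤ b → g x = x := by
        obtain ⟨b, hb⟩ := hmc
        exact ⟨b, fun x hx => by rw [hb x hx]; ring⟩
      have hne : ∃ p, g p ≠ p := by
        by_contra hcon
        push Not at hcon
        exact h1 (DFunLike.ext _ _ hcon)
      obtain ⟨a, b, m, hab, hm, h2, h3⟩ := first_support hg hid hne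
      rcases lt_or_gt_of_ne hm with h | h
      · right
        refine pos_inv_of (t := b) ?_ fun s hs => ?_
        · rw [h3 b hab.le le_rfl]
          nlinarith
        · rcases le_total s a with h4 | h4
          · exact (h2 s h4).le
          · rw [h3 s h4 hs]
            nlinarith
      · left
        refine ⟨b, ?_, fun s hs => ?_⟩
        · rw [h3 b hab.le le_rfl]
          nlinarith
        · rcases le_total s a with h4 | h4
          · exact (h2 s h4).ge
          · rw [h3 s h4 hs]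
            nlinarith
    · exact Or.inl (pos_of_gb hmc (Or.inr ⟨h, h'⟩))
  · exact Or.inr (neg_of_gb hmc (Or.inl h))

end pa

end Pool.Agent.X263.PL
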