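import Pool.Agent.X263.PL.Slope
import Pool.Agent.Y72.Un.CnLin

/-!
The conditions on centralisers and roots for finitely generated groups of piecewise affine order
automorphisms of a linearly ordered field.
-/

set_option autoImplicit false

namespace Pool.Agent.X263.PL

open Pool.Agent.Y72.Un Pool.Agent.Y72.Log Pool.Agent.Y72.Dt

variable {K : Type*} [Field K] [LinearOrder K] [IsStrictOrderedRing K]
  {Γ : Type*} [Group Γ] {φ : Γ →* (K ≃o K)}

theorem roots (hφ : Function.Injective φ) (hPA : ∀ g, PA (φ g)) (x y : Γ) (n : ℕ) (hn : 0 < n)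
    (h : x ^ n = y ^ n) : x = y := by
  apply hφ
  apply roots_unique (n := n) _ hn (by rw [← map_pow, ← map_pow, h])
  have := trichotomy (hPA (x⁻¹ * y))
  rwa [map_mul, map_inv] at this

theorem tors_free (hφ : Function.Injective φ) (hPA : ∀ g, PA (φ g)) (g : Γ) (m : ℕ) (hm : 0 < m)
    (h : g ^ m = 1) : g = 1 :=
  roots hφ hPA g 1 m hm (by rw [h, one_pow])

theorem ur (hφ : Function.Injective φ) (hPA : ∀ g, PA (φ g)) : UR Γ := by
  apply Nat.infinite_setOfPred_prime.mono
  intro l hl
  exact ⟨hl, fun x y h => roots hφ hPA x y l hl.pos h⟩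

omit [Field K] [IsStrictOrderedRing K] in
theorem comm_apply {x c : Γ} (h : x * c = c * x) (t : K) : φ x (φ c t) = φ c (φ x t) := by
  have h1 : φ x * φ c = φ c * φ x := by rw [← map_mul, ← map_mul, h]
  exact DFunLike.congr_fun h1 t

theorem comm_inv {x c : Γ} (h : x * c = c * x) : x⁻¹ * c = c * x⁻¹ := by
  have h1 : Commute x c := h
  exact h1.inv_left

omit [Field K] [IsStrictOrderedRing K] in
theorem inv_apply_self' (x : Γ) (t : K) : φ x⁻¹ (φ x t) = t := by
  rw [map_inv]
  exact (φ x).symm_apply_apply t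

omit [Field K] [IsStrictOrderedRing K] in
theorem apply_inv_self' (x : Γ) (t : K) : φ x (φ x⁻¹ t) = t := by
  rw [map_inv]
  exact (φ x).apply_symm_apply t

/-- the leftmost point of the support is fixed by the centraliser -/
theorem fix_support {c : Γ} {a b m : K} (hab : a < b) (hm : m ≠ 1)
    (h1 : ∀ x, x ≤ a → φ c x = x) (h2 : ∀ x, a ≤ x → x ≤ b → φ c x = a + m * (x - a))
    {x : Γ} (hx : x * c = c * x) : φ x a = a := by
  have key : ∀ y : Γ, y * c = c * y → φ y a ≤ a := by
    intro y hy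
    by_contra hlt
    push Not at hlt
    set t := min b (φ y a) with ht
    have hat : a < t := lt_min hab hlt
    have h3 : φ y⁻¹ t ≤ a := by
      have := (φ y⁻¹).monotone (min_le_right b (φ y a))
      rwa [inv_apply_self'] at this
    have h4 : φ c t = t := by
      have h5 := comm_apply (comm_inv hy) (φ := φ) t
      rw [h1 _ h3] at h5
      have h6 := congrArg (φ y) h5
      rwa [apply_inv_self', apply_inv_self'] at h6
    rw [h2 t hat.le (min_le_left _ _)] at h4
    have h5 : (m - 1) * (t - a) = 0 := by linear_combination h4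
    rcases mul_eq_zero.mp h5 with h6 | h6
    · exact hm (sub_eq_zero.mp h6)
    · exact absurd (sub_eq_zero.mp h6) hat.ne'
  apply le_antisymm (key x hx)
  have h3 := (φ x).monotone (key x⁻¹ (comm_inv hx))
  rwa [apply_inv_self'] at h3

omit [Field K] [IsStrictOrderedRing K] in
/-- the leftmost fixed point is fixed by the centraliser -/
theorem fix_first {c : Γ} {a : K} (h1 : φ c a = a) (h2 : ∀ x, x < a → φ c x ≠ x)
    {x : Γ} (hx : x * c = c * x) : φ x a = a := by
  have key : ∀ y : Γ, y * c = c * y → a ≤ φ y a := by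
    intro y hy
    by_contra hlt
    push Not at hlt
    apply h2 _ hlt
    rw [← comm_apply hy, h1]
  apply le_antisymm _ (key x hx)
  have h3 := (φ x).monotone (key x⁻¹ (comm_inv hx))
  rwa [apply_inv_self'] at h3

/-- the slopes of the elements of a finitely generated group generate a finitely generated group
of positive elements -/
theorem exists_slope_group [Group.FG Γ] (hPA : ∀ g, PA (φ g)) :
    ∃ L : Subgroup Kˣ, L.FG ∧ (∀ u ∈ L, 0 < (u : K)) ∧
      ∀ (g : Γ) (σ a m : K), (σ = 1 ∨ σ = -1) → Sl σ (φ g) a m → ∃ u ∈ L, (u : K) = m := by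
  classical
  obtain ⟨s, hs⟩ := (Group.fg_def.1 (inferInstance : Group.FG Γ))
  set B : Set Kˣ := {u | ∃ g ∈ s, ∃ σ a, (σ = 1 ∨ σ = -1) ∧ Sl σ (φ g) a (u : K)} with hB
  have hBfin : B.Finite := by
    have h1 : B ⊆ ⋃ g ∈ (s : Set Γ), (fun u : Kˣ => (u : K)) ⁻¹'
        {m : K | ∃ σ a, (σ = 1 ∨ σ = -1) ∧ Sl σ (φ g) a m} := by
      rintro u ⟨g, hg, σ, a, h⟩
      simp only [Set.mem_iUnion]
      exact ⟨g, hg, σ, a, h⟩
    refine Set.Finite.subset ?_ h1
    refine Set.Finite.biUnion (Finset.finite_toSet s) fun g _ => ?_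
    exact Set.Finite.preimage (Units.val_injective.injOn) (hPA g).finite_slopes
  refine ⟨Subgroup.closure B, ⟨hBfin.toFinset, by rw [Set.Finite.coe_toFinset]⟩, ?_, ?_⟩
  · intro u hu
    induction hu using Subgroup.closure_induction with
    | mem u hu =>
      obtain ⟨g, hg, σ, a, hσ, h⟩ := hu
      exact h.pos hσ (φ g).strictMono
    | one => simp
    | mul u v _ _ h1 h2 => simpa using mul_pos h1 h2
    | inv u _ h1 => simpa using h1
  · have key : ∀ g ∈ Subgroup.closure (s : Set Γ), ∀ (σ a m : K), (σ = 1 ∨ σ = -1) →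
        Sl σ (φ g) a m → ∃ u ∈ Subgroup.closure B, (u : K) = m := by
      intro g hg
      induction hg using Subgroup.closure_induction with
      | mem g hg =>
        intro σ a m hσ h
        have hm := h.pos hσ (φ g).strictMono
        refine ⟨Units.mk0 m hm.ne', Subgroup.subset_closure ⟨g, hg, σ, a, hσ, h⟩, rfl⟩
      | one =>
        intro σ a m hσ h
        refine ⟨1, one_mem _, ?_⟩
        have hσ0 : σ ≠ 0 := by rcases hσ with rfl | rfl <;> norm_num
        have h1 : Sl σ (φ (1 : Γ)) a 1 := by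
          refine ⟨1, one_pos, fun t _ _ => ?_⟩
          rw [map_one]
          change a + σ * t = a + σ * (1 * t)
          ring
        rw [h.unique hσ0 h1, Units.val_one]
      | mul g h _ _ ih1 ih2 =>
        intro σ a m hσ hm
        have hσ0 : σ ≠ 0 := by rcases hσ with rfl | rfl <;> norm_num
        obtain ⟨m1, h1⟩ := (hPA h).exists_sl hσ a
        obtain ⟨m2, h2⟩ := (hPA g).exists_sl hσ (φ h a)
        have h3 := Sl.comp (h1.pos hσ (φ h).strictMono) h1 h2
        have h4 : Sl σ (φ (g * h)) a (m2 * m1) := by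
          rw [map_mul]
          exact h3
        obtain ⟨u1, hu1, e1⟩ := ih2 σ a m1 hσ h1
        obtain ⟨u2, hu2, e2⟩ := ih1 σ (φ h a) m2 hσ h2
        exact ⟨u2 * u1, mul_mem hu2 hu1, by rw [Units.val_mul, e1, e2, hm.unique hσ0 h4]⟩
      | inv g _ ih =>
        intro σ a m hσ hm
        have hσ0 : σ ≠ 0 := by rcases hσ with rfl | rfl <;> norm_num
        obtain ⟨m1, h1⟩ := (hPA g).exists_sl hσ (φ g⁻¹ a)
        have h2 := Sl.inv (h1.pos hσ (φ g).strictMono) h1
        rw [apply_inv_self', ← map_inv] at h2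
        obtain ⟨u1, hu1, e1⟩ := ih σ _ m1 hσ h1
        refine ⟨u1⁻¹, inv_mem hu1, ?_⟩
        rw [Units.val_inv_eq_inv_val, e1]
        exact (hm.unique hσ0 h2).symm
    intro g
    exact key g (by rw [hs]; exact Subgroup.mem_top g)

/-- functionals on finitely generated groups of positive elements -/
theorem exists_functional (L : Subgroup Kˣ) (hL : L.FG) (hpos : ∀ u ∈ L, 0 < (u : K)) (v : Kˣ)
    (hv : v ∈ L) (hv1 : (v : K) ≠ 1) : ∃ f : Kˣ → ℤ,
      (∀ u ∈ L, ∀ u' ∈ L, f (u * u') = f u + f u') ∧ f v ≠ 0 := by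
  classical
  have : Group.FG L := (Group.fg_iff_subgroup_fg L).2 hL
  have : AddGroup.FG (Additive L) := inferInstance
  have : Module.Finite ℤ (Additive L) := Module.Finite.iff_addGroup_fg.2 inferInstance
  have : IsMulTorsionFree L := by
    refine ⟨fun n hn u v huv => ?_⟩
    have h1 : ((u : Kˣ) : K) ^ n = ((v : Kˣ) : K) ^ n := by
      have h2 : (u : L) ^ n = v ^ n := huv
      have h3 := congrArg (fun w : L => ((w : Kˣ) : K)) h2
      simpa using h3
    have h2 := (pow_left_inj₀ (hpos u u.2).le (hpos v v.2).le hn).mp h1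
    exact Subtype.ext (Units.ext h2)
  have : Module.Free ℤ (Additive L) := Module.free_of_finite_type_torsion_free'
  let b := Module.Free.chooseBasis ℤ (Additive L)
  have hne : Additive.ofMul (⟨v, hv⟩ : L) ≠ 0 := by
    intro h
    apply hv1
    have h1 : (⟨v, hv⟩ : L) = 1 := h
    have h2 : v = 1 := congrArg Subtype.val h1
    rw [h2, Units.val_one]
  obtain ⟨i, hi⟩ : ∃ i, b.repr (Additive.ofMul (⟨v, hv⟩ : L)) i ≠ 0 := by
    by_contra hcon
    push Not at hcon
    apply hne
    apply b.repr.injective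
    ext i
    rw [hcon i, map_zero, Finsupp.coe_zero, Pi.zero_apply]
  refine ⟨fun u => if h : u ∈ L then b.repr (Additive.ofMul (⟨u, h⟩ : L)) i else 0, ?_, ?_⟩
  · intro u hu u' hu'
    simp only [dif_pos hu, dif_pos hu', dif_pos (mul_mem hu hu')]
    have h1 : Additive.ofMul (⟨u * u', mul_mem hu hu'⟩ : L) =
        Additive.ofMul (⟨u, hu⟩ : L) + Additive.ofMul (⟨u', hu'⟩ : L) := rfl
    rw [h1, map_add, Finsupp.add_apply]
  · simp only [dif_pos hv]
    exact hi

/-- an additive function on the centraliser from the slopes at a point -/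
theorem ca_of_slope [Group.FG Γ] (hPA : ∀ g, PA (φ g)) {c : Γ} {σ a m : K}
    (hσ : σ = 1 ∨ σ = -1) (hfix : ∀ x, x * c = c * x → φ x a = a) (hsl : Sl σ (φ c) a m)
    (hm : m ≠ 1) : Ca c := by
  classical
  have hσ0 : σ ≠ 0 := by rcases hσ with rfl | rfl <;> norm_num
  obtain ⟨L, hL, hpos, hsub⟩ := exists_slope_group hPA
  have h1 : ∀ g : Γ, ∃ u ∈ L, Sl σ (φ g) a (u : K) := by
    intro g
    obtain ⟨n, hn⟩ := (hPA g).exists_sl hσ a
    obtain ⟨u, hu, e⟩ := hsub g σ a n hσ hn
    exact ⟨u, hu, e ▸ hn⟩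
  choose u hu hsu using h1
  have hcm : ((u c : Kˣ) : K) ≠ 1 := by
    rw [(hsu c).unique hσ0 hsl]
    exact hm
  obtain ⟨f, hf, hfc⟩ := exists_functional L hL hpos (u c) (hu c) hcm
  refine ⟨fun g => f (u g), ?_, hfc⟩
  intro x y hx hy
  change f (u (x * y)) = f (u x) + f (u y)
  rw [← hf _ (hu x) _ (hu y)]
  congr 1
  apply Units.ext
  have h2 := Sl.comp (g := φ x) (h := φ y) (hpos _ (hu y)) (hsu y) (by rw [hfix y hy]; exact hsu x)
  have h3 : Sl σ (φ (x * y)) a ((u x : K) * (u y : K)) := by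
    rw [map_mul]
    exact h2
  rw [(hsu (x * y)).unique hσ0 h3, Units.val_mul]

/-! ### germs at `-∞` -/

theorem Gb.pos {f : K → K} (hf : StrictMono f) {m c : K} (h : Gb f m c) : 0 < m := by
  obtain ⟨b, hb⟩ := h
  have h1 : f (b - 1) < f b := hf (by linarith)
  rw [hb b le_rfl, hb (b - 1) (by linarith)] at h1
  nlinarith

theorem Gb.comp {g h : K → K} {m c m' c' : K} (hm : 0 < m) (hh : Gb h m c) (hg : Gb g m' c') :
    Gb (g ∘ h) (m' * m) (m' * c + c') := by
  obtain ⟨b, h1⟩ := hh
  obtain ⟨b', h2⟩ := hg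
  refine ⟨min b ((b' - c) / m), fun x hx => ?_⟩
  have h3 : m * x + c ≤ b' := by
    have := hx.trans (min_le_right _ _)
    rw [le_div_iff₀ hm] at this
    linarith
  rw [Function.comp_apply, h1 x (hx.trans (min_le_left _ _)), h2 _ h3]
  ring

omit [IsStrictOrderedRing K] in
theorem Gb.one : Gb (1 : K ≃o K) (1 : K) 0 := by
  refine ⟨0, fun x _ => ?_⟩
  change x = 1 * x + 0
  ring

/-- commuting elements of fixed point free elements commute -/
theorem cb_of_free (hPA : ∀ g, PA (φ g)) (hφ : Function.Injective φ) {c : Γ}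
    (hc : ∀ p, φ c p ≠ p) : Cb c := by
  intro x y hx hy
  obtain ⟨m0, c0, h0⟩ := (hPA c).exists_gb
  obtain ⟨m1, c1, h1⟩ := (hPA x).exists_gb
  obtain ⟨m2, c2, h2⟩ := (hPA y).exists_gb
  have p0 := h0.pos (φ c).strictMono
  have p1 := h1.pos (φ x).strictMono
  have p2 := h2.pos (φ y).strictMono
  have hne : ¬ (m0 = 1 ∧ c0 = 0) := by
    rintro ⟨rfl, rfl⟩
    obtain ⟨b, hb⟩ := h0
    apply hc b
    rw [hb b le_rfl]
    ring
  have e1 : m1 * c0 + c1 = m0 * c1 + c0 := by
    have a1 := Gb.comp p0 h0 h1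
    have a2 := Gb.comp p1 h1 h0
    have a3 : (φ x : K → K) ∘ φ c = φ c ∘ φ x := by
      funext t
      exact comm_apply hx t
    rw [a3] at a1
    exact (a1.unique a2).2
  have e2 : m2 * c0 + c2 = m0 * c2 + c0 := by
    have a1 := Gb.comp p0 h0 h2
    have a2 := Gb.comp p2 h2 h0
    have a3 : (φ y : K → K) ∘ φ c = φ c ∘ φ y := by
      funext t
      exact comm_apply hy t
    rw [a3] at a1
    exact (a1.unique a2).2
  have e3 : m1 * c2 + c1 = m2 * c1 + c2 := by
    by_cases hm : m0 = 1
    · subst hm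
      have hc0 : c0 ≠ 0 := fun h => hne ⟨rfl, h⟩
      have f1 : m1 = 1 := by
        have : (m1 - 1) * c0 = 0 := by linear_combination e1
        rcases mul_eq_zero.mp this with h | h
        · exact sub_eq_zero.mp h
        · exact absurd h hc0
      have f2 : m2 = 1 := by
        have : (m2 - 1) * c0 = 0 := by linear_combination e2
        rcases mul_eq_zero.mp this with h | h
        · exact sub_eq_zero.mp h
        · exact absurd h hc0
      rw [f1, f2]
      ring
    · have h3 : (1 - m0) * (m1 * c2 + c1 - (m2 * c1 + c2)) = 0 := by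
        linear_combination (1 - m2) * e1 - (1 - m1) * e2
      rcases mul_eq_zero.mp h3 with h | h
      · exact absurd (sub_eq_zero.mp h).symm hm
      · exact sub_eq_zero.mp h
  -- the commutator is the identity near `-∞`
  have hxy : Gb (φ (x * y)) (m1 * m2) (m1 * c2 + c1) := by
    have h3 := Gb.comp (g := φ x) (h := φ y) p2 h2 h1
    rw [map_mul]
    exact h3
  have hyx : Gb (φ (y * x)) (m1 * m2) (m1 * c2 + c1) := by
    have h3 := Gb.comp (g := φ y) (h := φ x) p1 h1 h2
    rw [map_mul, e3, mul_comm m1 m2]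
    exact h3
  by_contra hcon
  set u := (x * y)⁻¹ * (y * x) with hu
  have hu1 : u ≠ 1 := by
    intro h
    exact hcon (inv_mul_eq_one.mp h)
  have huc : c * u = u * c := by
    have a1 : Commute x c := hx
    have a2 : Commute y c := hy
    have a3 : Commute u c := ((a1.mul_left a2).inv_left).mul_left (a2.mul_left a1)
    exact a3.symm
  have hid : ∃ b, ∀ t, t ≤ b → φ u t = t := by
    obtain ⟨b, hb⟩ := hxy
    obtain ⟨b', hb'⟩ := hyx
    refine ⟨min b b', fun t ht => ?_⟩
    rw [hu, map_mul]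
    change φ (x * y)⁻¹ (φ (y * x) t) = t
    rw [hb' t (ht.trans (min_le_right _ _)), ← hb t (ht.trans (min_le_left _ _)), inv_apply_self']
  have hsupp : ∃ p, φ u p ≠ p := by
    by_contra hcon2
    push Not at hcon2
    apply hu1
    apply hφ
    rw [map_one]
    exact DFunLike.ext _ _ hcon2
  obtain ⟨a, b, m, hab, hm, g1, g2⟩ := first_support (hPA u) hid hsupp
  exact hc a (fix_support hab hm g1 g2 huc)

/-- the dichotomy: either slopes at a point, or the centraliser is commutative -/
theorem dichotomy [Group.FG Γ] (hPA : ∀ g, PA (φ g)) (hφ : Function.Injective φ) {c : Γ}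
    (hc : c ≠ 1) : Ca c ∨ ∀ p, φ c p ≠ p := by
  by_cases hfp : ∃ p, φ c p = p
  swap
  · right
    push Not at hfp
    exact hfp
  left
  by_cases hid : ∃ b, ∀ x, x ≤ b → φ c x = x
  · have hsupp : ∃ p, φ c p ≠ p := by
      by_contra hcon2
      push Not at hcon2
      apply hc
      apply hφ
      rw [map_one]
      exact DFunLike.ext _ _ hcon2
    obtain ⟨a, b, m, hab, hm, g1, g2⟩ := first_support (hPA c) hid hsupp
    refine ca_of_slope hPA (σ := 1) (a := a) (m := m) (Or.inl rfl)
      (fun x hx => fix_support hab hm g1 g2 hx) ?_ hm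
    refine ⟨b - a, by linarith, fun t ht ht' => ?_⟩
    rw [g2 _ (by linarith) (by linarith), g1 a le_rfl]
    ring
  · obtain ⟨a, h1, h2⟩ := first_fixed (hPA c) hid hfp
    obtain ⟨m, hm⟩ := (hPA c).exists_sl (σ := -1) (Or.inr rfl) a
    refine ca_of_slope hPA (σ := -1) (a := a) (m := m) (Or.inr rfl)
      (fun x hx => fix_first h1 h2 hx) hm ?_
    rintro rfl
    obtain ⟨ε, he, h3⟩ := hm
    have h4 := h3 ε he.le le_rfl
    refine h2 (a + -1 * ε) (by linarith) ?_
    rw [h4, h1]
    ring

end Pool.Agent.X263.PL
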