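import Pool.Agent.X263.PL.Basic

/-!
One-sided slopes of piecewise affine order automorphisms.
-/

set_option autoImplicit false

namespace Pool.Agent.X263.PL

variable {K : Type*} [Field K] [LinearOrder K] [IsStrictOrderedRing K]

/-- the slope of `g` at `a` on the side `σ` (`σ = 1` or `σ = -1`) is `m` -/
def Sl (σ : K) (g : K → K) (a m : K) : Prop :=
  ∃ ε, 0 < ε ∧ ∀ t, 0 ≤ t → t ≤ ε → g (a + σ * t) = g a + σ * (m * t)

theorem Sl.unique {σ : K} (hσ : σ ≠ 0) {g : K → K} {a m m' : K} (h : Sl σ g a m)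
    (h' : Sl σ g a m') : m = m' := by
  obtain ⟨ε, he, h1⟩ := h
  obtain ⟨ε', he', h2⟩ := h'
  have ht : 0 < min ε ε' := lt_min he he'
  have h3 := (h1 _ ht.le (min_le_left _ _)).symm.trans (h2 _ ht.le (min_le_right _ _))
  have h4 : σ * min ε ε' * (m - m') = 0 := by linear_combination h3
  rcases mul_eq_zero.mp h4 with h5 | h5
  · exact absurd h5 (mul_ne_zero hσ ht.ne')
  · exact sub_eq_zero.mp h5

theorem Sl.pos {σ : K} (hσ : σ = 1 ∨ σ = -1) {g : K → K} (hg : StrictMono g) {a m : K}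
    (h : Sl σ g a m) : 0 < m := by
  obtain ⟨ε, he, h1⟩ := h
  have h2 := h1 ε he.le le_rfl
  rcases hσ with rfl | rfl
  · have h3 : g a < g (a + 1 * ε) := hg (by linarith)
    rw [h2] at h3
    have h4 : 0 < m * ε := by linarith
    exact (mul_pos_iff_of_pos_right he).mp h4
  · have h3 : g (a + -1 * ε) < g a := hg (by linarith)
    rw [h2] at h3
    have h4 : 0 < m * ε := by linarith
    exact (mul_pos_iff_of_pos_right he).mp h4

theorem Sl.comp {σ : K} {g h : K → K} {a m m' : K} (hm : 0 < m) (hh : Sl σ h a m)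
    (hg : Sl σ g (h a) m') : Sl σ (g ∘ h) a (m' * m) := by
  obtain ⟨ε, he, h1⟩ := hh
  obtain ⟨ε', he', h2⟩ := hg
  refine ⟨min ε (ε' / m), lt_min he (div_pos he' hm), fun t ht ht' => ?_⟩
  have h3 : m * t ≤ ε' := by
    have := ht'.trans (min_le_right _ _)
    rw [le_div_iff₀ hm] at this
    linarith
  rw [Function.comp_apply, Function.comp_apply, h1 t ht (ht'.trans (min_le_left _ _)),
    h2 (m * t) (mul_nonneg hm.le ht) h3]
  ring

theorem Sl.inv {σ : K} {g : K ≃o K} {a m : K} (hm : 0 < m) (h : Sl σ g a m) :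
    Sl σ (g⁻¹ : K ≃o K) (g a) m⁻¹ := by
  have hd : ∀ x, (g⁻¹ : K ≃o K) (g x) = x := fun x => g.symm_apply_apply x
  obtain ⟨ε, he, h1⟩ := h
  refine ⟨m * ε, mul_pos hm he, fun t ht ht' => ?_⟩
  have h2 := h1 (m⁻¹ * t) (mul_nonneg (inv_nonneg.mpr hm.le) ht) (by
    rw [inv_mul_le_iff₀ hm]
    exact ht')
  have h3 : m * (m⁻¹ * t) = t := by rw [← mul_assoc, mul_inv_cancel₀ hm.ne', one_mul]
  rw [h3] at h2
  rw [← h2, hd, hd]

theorem PA.exists_sl {f : K → K} (hf : PA f) {σ : K} (hσ : σ = 1 ∨ σ = -1) (a : K) :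
    ∃ m, Sl σ f a m := by
  obtain ⟨S, hS⟩ := hf
  rcases hσ with rfl | rfl
  · obtain ⟨b, hab, h1⟩ := exists_right S a
    obtain ⟨m, c, h2⟩ := hS a b hab.le h1
    refine ⟨m, b - a, by linarith, fun t ht ht' => ?_⟩
    rw [h2 _ (by linarith) (by linarith), h2 a le_rfl hab.le]
    ring
  · obtain ⟨b, hab, h1⟩ := exists_left S a
    obtain ⟨m, c, h2⟩ := hS b a hab.le h1
    refine ⟨m, a - b, by linarith, fun t ht ht' => ?_⟩
    rw [h2 _ (by linarith) (by linarith), h2 a hab.le le_rfl]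
    ring

/-- left slopes are right slopes nearby -/
theorem Sl.left_right {f : K → K} {a m : K} (h : Sl (-1) f a m) : ∃ a', Sl 1 f a' m := by
  obtain ⟨ε, he, h1⟩ := h
  refine ⟨a - ε, ε, he, fun t ht ht' => ?_⟩
  have e1 := h1 ε he.le le_rfl
  have e2 := h1 (ε - t) (by linarith) (by linarith)
  have e3 : a + -1 * (ε - t) = a - ε + 1 * t := by ring
  have e4 : a + -1 * ε = a - ε := by ring
  rw [e3] at e2
  rw [e4] at e1
  rw [e2, e1]
  ring

/-- there are finitely many slopes -/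
theorem PA.finite_right {f : K → K} (hf : PA f) : {m : K | ∃ a, Sl 1 f a m}.Finite := by
  classical
  obtain ⟨S, hS⟩ := hf
  let pt : K → K := fun m => if h : ∃ a, Sl 1 f a m then Classical.choose h else 0
  have hpt : ∀ m ∈ {m : K | ∃ a, Sl 1 f a m}, Sl 1 f (pt m) m := by
    intro m hm
    have hm' : ∃ a, Sl 1 f a m := hm
    simp only [pt, dif_pos hm']
    exact Classical.choose_spec hm'
  have key : ∀ a a' m m' : K, a ≤ a' → S.filter (fun s => s ≤ a) = S.filter (fun s => s ≤ a') →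
      Sl 1 f a m → Sl 1 f a' m' → m = m' := by
    intro a a' m m' haa' hfil h1 h2
    obtain ⟨b, hab, h3⟩ := exists_right S a'
    obtain ⟨n, c, h4⟩ := hS a b (haa'.trans hab.le) (by
      rintro s hs ⟨h5, h6⟩
      rcases le_or_gt s a' with h7 | h7
      · have h8 : s ∈ S.filter (fun s => s ≤ a') := Finset.mem_filter.mpr ⟨hs, h7⟩
        rw [← hfil] at h8
        exact absurd (Finset.mem_filter.mp h8).2 (not_le.mpr h5)
      · exact h3 s hs ⟨h7, h6⟩)
    have h5 : ∀ x, a ≤ x → x < b → Sl 1 f x n := by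
      intro x hx hxb
      refine ⟨b - x, by linarith, fun t ht ht' => ?_⟩
      rw [h4 _ (by linarith) (by linarith), h4 x hx hxb.le]
      ring
    rw [h1.unique one_ne_zero (h5 a le_rfl (lt_of_le_of_lt haa' hab)),
      h2.unique one_ne_zero (h5 a' haa' hab)]
  refine Set.Finite.of_injOn (f := fun m => S.filter (fun s => s ≤ pt m))
    (t := (S.powerset : Set (Finset K))) ?_ ?_ (Finset.finite_toSet _)
  · intro m _
    simp only [Finset.coe_powerset, Set.mem_preimage, Set.mem_powerset_iff, Finset.coe_subset]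
    exact Finset.filter_subset _ _
  · intro m hm m' hm' heq
    rcases le_total (pt m) (pt m') with h | h
    · exact key _ _ _ _ h heq (hpt m hm) (hpt m' hm')
    · exact (key _ _ _ _ h heq.symm (hpt m' hm') (hpt m hm)).symm

theorem PA.finite_slopes {f : K → K} (hf : PA f) :
    {m : K | ∃ σ a, (σ = 1 ∨ σ = -1) ∧ Sl σ f a m}.Finite := by
  apply hf.finite_right.subset
  rintro m ⟨σ, a, rfl | rfl, h⟩
  · exact ⟨a, h⟩
  · exact h.left_right

end Pool.Agent.X263.PL
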